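import Pool.Agent.Helper8.Sey.Final

/-!
# MP_b6b2d3_co: Seymour's conjecture asymptotically, for `n` linear in `r`

For every `ε > 0` there is `K` such that for all `r ≥ K` and all graphs `G` on `n ≥ K r` vertices
with `δ(G) ≥ r n / (r + 1)`, `G` contains the `⌊(1 - ε) r⌋`-th power of the cycle `C_n`. The
statement has the form of the frozen statement `S10973`.
-/

namespace Pool.Agent.Results.MP_b6b2d3_co.AsymptoticPower

/-- **Seymour's conjecture asymptotically, for `n` linear in `r`.** -/
theorem result :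
    ∀ ε : ℝ, 0 < ε → ∃ K : ℕ, ∀ r : ℕ, K ≤ r →
    ∀ (V : Type) [Fintype V] [DecidableEq V] (G : SimpleGraph V) [DecidableRel G.Adj],
      K * r ≤ Fintype.card V →
      r * Fintype.card V ≤ (r + 1) * G.minDegree →
      ∃ σ : Fin (Fintype.card V) ≃ V,
        ∀ i k : Fin (Fintype.card V), k ≠ i →
          (((k.val + Fintype.card V - i.val) % Fintype.card V : ℕ) : ℝ) ≤ (1 - ε) * r →
            G.Adj (σ i) (σ k) :=
  Pool.Agent.Helper8.Sey.goalMAIN

end Pool.Agent.Results.MP_b6b2d3_co.AsymptoticPower
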