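import Pool.Agent.Helper63.Sey4.Final

/-!
# MP_b6b2d3_co: Seymour's conjecture near the extremal configuration, for all `r` and `n` linear in `r`

Let `r ≥ 0`, `n ≥ 10^6 (r + 1)`, `δ(G) ≥ r n / (r + 1)`, and let the vertex set of `G` be partitioned into `r + 1` classes
of size at least `(1 - 10^-6) n / (r + 1)` such that every vertex has at most `10^-6 n / (r + 1)` neighbours in its
own class. Then `G` contains the `r`-th power of the cycle `C_n`. The statement has the form of the frozen
statement `S10973`.
-/

namespace Pool.Agent.Results.MP_b6b2d3_co.NearExtremal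

open Finset

/-- **Seymour's conjecture near the extremal configuration.** -/
theorem result :
    ∀ (r : ℕ) (V : Type) [Fintype V] [DecidableEq V] (G : SimpleGraph V) [DecidableRel G.Adj]
      (f : V → Fin (r + 1)), 10 ^ 6 * (r + 1) ≤ Fintype.card V →
      r * Fintype.card V ≤ (r + 1) * G.minDegree →
      (∀ v, 10 ^ 6 * (r + 1) * (univ.filter (fun u => G.Adj v u ∧ f u = f v)).card ≤
        Fintype.card V) →
      (∀ i, (10 ^ 6 - 1) * Fintype.card V ≤
        10 ^ 6 * (r + 1) * (univ.filter (fun v => f v = i)).card) →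
      ∃ σ : Fin (Fintype.card V) ≃ V, ∀ i k : Fin (Fintype.card V), k ≠ i →
        (k.val + Fintype.card V - i.val) % Fintype.card V ≤ r → G.Adj (σ i) (σ k) := by
  intro r V _ _ G _ f h1 h2 h3 h4
  exact Pool.Agent.Helper63.Sey4.goalTHM r V G f h1 h2 h3 h4

end Pool.Agent.Results.MP_b6b2d3_co.NearExtremal
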