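import Pool.Agent.Helper51.PSC.Graph

/-!
# MP_b6b2d3_co: Seymour's conjecture when `n < 4 (r + 1)`

For every `r ≥ 1` and every graph `G` on `n < 4 (r + 1)` vertices with `δ(G) ≥ r n / (r + 1)`,
`G` contains the `r`-th power of the Hamiltonian cycle `C_n`. The statement has the form of the
frozen statement `S10973` with the hypothesis `n < 4 (r + 1)` added.
-/

namespace Pool.Agent.Results.MP_b6b2d3_co.OrderBelowFour

open Pool.Agent.Helper51.PSC

/-- **Seymour's conjecture for `n < 4 (r + 1)`.** -/
theorem result :
    ∀ (r : ℕ), 1 ≤ r →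
    ∀ (V : Type) [Fintype V] [DecidableEq V] (G : SimpleGraph V) [DecidableRel G.Adj],
      Fintype.card V < 4 * (r + 1) →
      r * Fintype.card V ≤ (r + 1) * G.minDegree →
      ∃ σ : Fin (Fintype.card V) ≃ V,
        ∀ i k : Fin (Fintype.card V), k ≠ i →
          (k.val + Fintype.card V - i.val) % Fintype.card V ≤ r →
            G.Adj (σ i) (σ k) := by
  classical
  intro r hr V _ _ G _ hcard hdeg
  set n := Fintype.card V with hn
  rcases Nat.eq_zero_or_pos n with h0 | hpos
  · refine ⟨(Fintype.equivFinOfCardEq hn.symm).symm, fun i => ?_⟩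
    exact absurd i.2 (by omega)
  -- degrees in the complement
  have hcompl : ∀ v : V, (r + 1) * (Gᶜ.degree v + 1) ≤ n := by
    intro v
    have h1 := G.minDegree_le_degree v
    have h2 : Gᶜ.degree v + G.degree v + 1 = n := by
      rw [SimpleGraph.degree_compl]
      have := G.degree_lt_card_verts v
      omega
    have h3 : (r + 1) * G.minDegree ≤ (r + 1) * G.degree v := Nat.mul_le_mul_left _ h1
    have h4 : (r + 1) * (Gᶜ.degree v + 1) + (r + 1) * G.degree v = (r + 1) * n := by
      rw [← mul_add]; congr 1; omega
    have h5 : (r + 1) * n = r * n + n := by ring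
    omega
  -- transport the complement to `Fin n`
  set e : Fin n ≃ V := (Fintype.equivFinOfCardEq hn.symm).symm with he
  set H : SimpleGraph (Fin n) := Gᶜ.comap e with hH
  have hHadj : ∀ x y, H.Adj x y ↔ Gᶜ.Adj (e x) (e y) := fun x y => Iff.rfl
  -- from an arrangement to the conclusion
  have fin : (∃ (t : ℕ) (c : Equiv.Perm (Fin n)), r + 1 ≤ t ∧
      ∀ x y, H.Adj x y → Far n t (c x) (c y)) →
      ∃ σ : Fin n ≃ V, ∀ i k : Fin n, k ≠ i → (k.val + n - i.val) % n ≤ r →
        G.Adj (σ i) (σ k) := by
    rintro ⟨t, c, ht, hc⟩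
    refine ⟨c.symm.trans e, fun i k hki hd => ?_⟩
    by_contra hcon
    have hne : e (c.symm i) ≠ e (c.symm k) := by
      intro h
      exact hki (c.symm.injective (e.injective h)).symm
    have hadj : H.Adj (c.symm i) (c.symm k) := by
      rw [hHadj, SimpleGraph.compl_adj]
      exact ⟨hne, hcon⟩
    have h1 := hc _ _ hadj
    rw [Equiv.apply_symm_apply, Equiv.apply_symm_apply] at h1
    have h2 := far_mod i.2 k.2 (by omega) h1
    omega
  apply fin
  -- neighbours in the complement
  have hnb : ∀ (x : Fin n) (s : Finset (Fin n)), (∀ y ∈ s, H.Adj x y) →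
      (r + 1) * (s.card + 1) ≤ n := by
    intro x s hs
    refine le_trans (Nat.mul_le_mul_left _ (Nat.succ_le_succ ?_)) (hcompl (e x))
    rw [← SimpleGraph.card_neighborFinset_eq_degree, ← Finset.card_map e.toEmbedding]
    apply Finset.card_le_card
    intro v hv
    obtain ⟨y, hy, rfl⟩ := Finset.mem_map.1 hv
    rw [SimpleGraph.mem_neighborFinset]
    exact hs y hy
  rcases Nat.lt_or_ge n (2 * (r + 1)) with h2 | h2
  · -- complete graph
    refine ⟨r + 1, 1, le_rfl, fun x y hxy => ?_⟩
    have := hnb x {y} (by simpa using hxy)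
    rw [Finset.card_singleton] at this
    omega
  rcases Nat.lt_or_ge n (3 * (r + 1)) with h3 | h3
  · obtain ⟨c, hc⟩ := arrange_one hpos (H := H) (by
      intro x a b ha hb
      by_contra hab
      have := hnb x {a, b} (by
        intro y hy
        rw [Finset.mem_insert, Finset.mem_singleton] at hy
        rcases hy with rfl | rfl
        · exact ha
        · exact hb)
      rw [Finset.card_pair hab] at this
      omega)
    exact ⟨n / 2, c, by omega, hc⟩
  · obtain ⟨c, hc⟩ := arrange_two hpos (H := H) (by
      intro x a b d ha hb hd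
      by_contra hcon
      push Not at hcon
      obtain ⟨hab, had, hbd⟩ := hcon
      have := hnb x {a, b, d} (by
        intro y hy
        rw [Finset.mem_insert, Finset.mem_insert, Finset.mem_singleton] at hy
        rcases hy with rfl | rfl | rfl
        · exact ha
        · exact hb
        · exact hd)
      rw [Finset.card_eq_three.2 ⟨a, b, d, hab, had, hbd, rfl⟩] at this
      omega)
    exact ⟨n / 3, c, by omega, hc⟩

end Pool.Agent.Results.MP_b6b2d3_co.OrderBelowFour
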